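import Pool.Agent.T9h4.DI.Stm

/-!
Logarithmic version of the criterion for diagonal intersections: the statements of the pieces.
Everything is in the namespace `Pool.Agent.T9h4.LD`. The case of the empty boundary is in
`Pool/Agent/T9h4/DI/*.lean`; the files there are to be copied and adapted.
-/

set_option autoImplicit false

open FF Module Finset Pool.Agent.W603.LV Pool.Agent.W602.GT Pool.Agent.Y191 Pool.Agent.T9h4.NT
open Pool.Agent.T9h4.DI

namespace Pool.Agent.T9h4.LD

section comb

variable (k : Type) {U : Type} [Field k] [AddCommGroup U] [Module k U] {N : ℕ}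

/-- For every partition of the index set into at least two sets (the fibres of a map `φ`) the sum of
the ranks of these sets is at least the rank of all vectors plus `m / d`, where `m` is the number of
the fibres which do not meet the boundary `Bn`. -/
def CritL (d : ℕ) (T : Fin N → U) (Bn : Finset (Fin N)) : Prop :=
  ∀ φ : Fin N → Fin N, (∃ i j, φ i ≠ φ j) →
    d * rk k T univ + ((univ.image φ).filter fun i => ∀ j ∈ Bn, φ j ≠ i).card ≤
      d * ∑ i ∈ univ.image φ, rk k T (univ.filter fun j => φ j = i)

/-- weights `b` with numerators `Z` on the span of the `T j`; the subspaces without an element of the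
boundary satisfy a stronger inequality -/
structure WtsL (D : ℕ) (T : Fin N → U) (Bn : Finset (Fin N)) (b : Fin N → ℕ) (Z : Multiset U) :
    Prop where
  mem : ∀ z ∈ Z, z ∈ sp k T univ ∧ z ≠ 0
  tot : ∑ j, b j = D * rk k T univ + Z.card
  cap0 : ∀ A ≤ sp k T univ, A ≠ ⊥ → A ≠ sp k T univ → wt T b A ≤ D * finrank k A + cnt Z A
  cap1 : ∀ A ≤ sp k T univ, A ≠ ⊥ → A ≠ sp k T univ → (∀ j ∈ Bn, T j ∉ A) →
    wt T b A + 1 ≤ D * finrank k A + cnt Z A

end comb

/-- (L1) existence of weights. Sketch: as in `DI/Comb.lean` (`ear`, `Sol.step`, `exists_sol`) with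
`ε F = 1` if `F` does not meet `Bn` and `ε F = 0` otherwise in place of `1`:
`∑_F c + ε F ≤ d rk F`; `F` is tight if equality holds; unions of tight sets which meet are tight
since `ε F + ε G ≤ ε (F ∪ G) + ε (F ∩ G)` for `F ∩ G ≠ ∅`. If some `e ∈ E` is in no tight set the
ear and the extension step work as before (the new `z` gives the `+ 1` in the case `S ≤ A`). If all
`e ∈ E` are in tight sets, the partition into the maximal tight sets and the complement of `E` (the
indices in `S`) contradicts `CritL` if no `T j`, `j ∈ Bn`, is in `S`; and if there is a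
`j ∈ Bn` with `T j ∈ S`, then `CritL` and `d dim S + ∑_E c ≤ d rk univ` give equality, and
`b + c` (without a new `z`) is a solution on the whole span: for `A` with `S ∩ A ≠ ⊥, S` add the
inequality of `S ∩ A` and `d dim S + ∑_F c ≤ d dim (S ⊔ span F)`, `F = {j ∈ E | T j ∈ A}`; for `S ≤ A`
there is nothing to gain as `A` contains a `T j`, `j ∈ Bn`; for `S ∩ A = ⊥` use
`∑_F c + ε F ≤ d rk F` (or `1 ≤ d dim A` if `F` is empty). So the structure `Sol` has two caps
(`cap0`, `cap1` as in `WtsL`), and the induction goes over `finrank S` as in `exists_sol`. -/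
def SolL : Prop := ∀ (k U : Type) [Field k] [AddCommGroup U] [Module k U] (N d : ℕ)
  (T : Fin N → U) (Bn : Finset (Fin N)), 0 < d → (∀ j, T j ≠ 0) → CritL k d T Bn → 0 < N →
  ∃ (b : Fin N → ℕ) (Z : Multiset U), WtsL k d T Bn b Z

/-- the places whose centre is on one of the boundary divisors `x j = 0`, `j ∈ Bn` -/
def OffB {k K : Type} [Field k] [Field K] [Algebra k K] {N : ℕ} (x : Fin N → K)
    (Bn : Finset (Fin N)) (P : Place k K) : Prop :=
  ∃ j ∈ Bn, ∃ i, P.ord (x i) < P.ord (x j)

/-- (L2) the logarithmic forms. Sketch: `DI/Filt.lean` (`level_ineq`), `DI/Form.lean` (`fm_ge`,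
`fm_reg`), `DI/Pos.lean` (`plur_of_wts`). `level_ineq` only uses the caps for the subspaces
`A = lev P _ a`, `a > min`; if `P` is not in the boundary these contain no `T j`, `j ∈ Bn` (`T j` has
the minimal order), so `cap1` gives the old inequality with `ε = 1` and `fm_reg` (with
`Dg = d ≤ 1 * d`). For all `P` and `DerLog` derivations use `cap0` (`ε = 0`), and
`Ge P (∑ i, P.ord (e i)) (vw D e).det` for logarithmic `D` (as `vw_ge` without the `- 1`:
`D i (e j / e 0)` has order at least `ord (e j / e 0)`), so `Ge P 0 (fm ..)`. -/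
def FormL : Prop := ∀ (k K : Type) [Field k] [CharZero k] [Field K] [Algebra k K] (w N d : ℕ)
  (x : Fin N → K) (Bn : Finset (Fin N)) (b : Fin N → ℕ) (Z : Multiset K), 0 < d →
  Dat k d w x → WtsL k d (fun j => x j ^ d) Bn b Z →
  ∃ ω : (Fin w → Derivation k K K) → K, LogSec k K w d (OffB x Bn) ω ∧ ∃ D, ω D ≠ 0

/-- (L3) Kummer covers of the relative affine space with a boundary. Sketch: `DI/NegB.lean`
(`Kmr.not_psef`). `C` are the boundary divisors among the `ℓ i = 0`, `β = 1` if infinity may be in
the boundary. Let `c = j N' (d - 1)`, `c' = j N'`, `L = (∏ ℓ i) ^ c * (∏ i ∈ C, ℓ i) ^ c' * p ^ j`. At the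
places outside of the boundary as there; at the places over `ℓ i`, `i ∈ C` (ramification index
`ρ ≤ d`) the pole order of a logarithmic form of weight `m = j d N'` is at most
`m (ρ - 1) + m = m ρ` in terms of the frame `D` (instead of `m (ρ - 1)`), and `c + c' = j N' d`. The
same at infinity if `β = 1`. One needs the variants of `FrF.adic_ge`, `FrF.deg_ge` for `DerLog`
(search `DerLog` in Y172, Y191, W602; otherwise: for a uniformizer-like function multiply only one
vector of an adapted frame). -/
def NotPsefL : Prop := ∀ (K : Type) [Field K] [Algebra ℂ K] [Algebra.EssFiniteType ℂ K]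
  (σ : Type) [Fintype σ] [DecidableEq σ] (n d e : ℕ) (F : IntermediateField ℂ K) (U : σ → K)
  (y : Fin e → K) (ℓ : Fin e → MvPolynomial σ F) (Bd : Place ℂ K → Prop) (C : Finset (Fin e))
  (β : ℕ), Algebra.trdeg ℂ K = n → Kmr F U d y ℓ → 0 < d → Nonempty σ → β ≤ 1 →
  (∀ (P : Place ℂ K) (g : MvPolynomial σ F), Irreducible g → AdicF P U g → Bd P →
    ∃ i ∈ C, P.ord (MvPolynomial.aeval U (ℓ i)) = P.ord (MvPolynomial.aeval U g)) →
  (∀ (P : Place ℂ K) (ρ : ℕ), 1 ≤ ρ → DegF F P U Finset.univ ρ → Bd P → β = 1) →
  (e + 1) * (d - 1) + (C.card + β) < d * (Fintype.card σ + 1) →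
  ¬ Psef ℂ K n Bd

/-- (L4) if the inequality fails for a partition then `K + D` is not pseudo-effective. Sketch:
`DI/NegF.lean` (`not_psef_of_not_crit`). The `lam j` and `M` as there (`M` a maximal set of indices of
nonconstant, pairwise not associated `lam j`). `C` = the `i ∈ M` such that some `lam j`, `j ∈ Bn`,
is associated to `lam i`; `β = 1` if some `lam j`, `j ∈ Bn`, is constant (`¬ nc j`). There is an
injection of `M ∪ {∞}` into the blocks of `φ` which maps `i ∈ C` to a block which meets `Bn` (the block
of a `j ∈ Bn` with `lam j` associated to `lam i`; all `lam` of one block are equal; blocks for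
different `i ∈ M`, and blocks with constant `lam`, are different), and `∞` to a block with constant
`lam`, which meets `Bn` if `β = 1`. So `M.card + 1 ≤ q`, `C.card + β ≤ f` and
`(M.card + 1) (d - 1) + C.card + β ≤ q (d - 1) + f`, with `q` the number of blocks, `f` the number of
blocks which meet `Bn`; and `base_le` and the failing inequality give `q (d - 1) + f < d (v + 1)`. At a
place over `g` with `OffB`: `P.ord (x i) < P.ord (x j)`, `j ∈ Bn`, so `aeval U (lam j)` has positive
order (the functions in `Fb` have order zero, all `x i / x (R i)` are in `Fb`, and the order of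
`aeval U (lam i)` is nonnegative and zero for `i = b0`), so `g` divides `lam j`. At infinity: the
nonconstant `lam i` have the order `-ρ`, the constant ones the order `0`, so `lam j` is constant (if
`lam j` is not constant its order is minimal). -/
def NotCritL : Prop := NotPsefL → ∀ (K : Type) [Field K] [Algebra ℂ K] (w N d : ℕ)
  (x : Fin N → K) (Bn : Finset (Fin N)), 2 ≤ d → Dat ℂ d w x →
  ¬ CritL ℂ d (fun j => x j ^ d) Bn → ¬ Psef ℂ K w (OffB x Bn)

section main

variable {K : Type} [Field K] [Algebra ℂ K] {n : ℕ}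

/-- For every partition `P` of the set of the nonzero coordinates into at least two blocks,
`m (w + 1) + (number of blocks which do not meet Un) ≤ m ∑ (ranks of the blocks)`. -/
def BalancedL (m d w : ℕ) (y : Fin (n + 1) → K) (Un : Finset (Fin (n + 1))) : Prop :=
  ∀ P : Finpartition (supp y), 2 ≤ P.parts.card →
    m * (w + 1) + (P.parts.filter fun B => Disjoint B Un).card ≤ m * ∑ B ∈ P.parts, brk d y B

/-- the places whose centre is on one of the divisors `y j = 0`, `j ∈ Un` -/
def OffU (y : Fin (n + 1) → K) (Un : Finset (Fin (n + 1))) (P : Place ℂ K) : Prop :=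
  ∃ j ∈ Un, y j ≠ 0 ∧ ∃ i, y i ≠ 0 ∧ P.ord (y i) < P.ord (y j)

end main

/-- (L5) the main theorem. Sketch: `DI/Stm.lean` (`crit_iff`, `exists_dat`, `main`), with
`Bn = {i | e i ∈ Un}` for the enumeration `e` of the nonzero coordinates. For the implication from
the section to `Psef` use `psef_of_kodGe` if it is stated for a general boundary, otherwise:
powers `ω ^ N` of the section and `S = ∅` or `{1}`. -/
def MainL : Prop := SolL → FormL → NotPsefL → NotCritL → ∀ (K : Type) [Field K] [Algebra ℂ K]
  (n d w : ℕ) (ι : Type) (F : ι → MvPolynomial (Fin (n + 1)) ℂ) (y : Fin (n + 1) → K)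
  (Un : Finset (Fin (n + 1))), 2 ≤ d → (∀ e, IsDiag d (F e)) → SubVar F K w y → IsComponent F y →
  (Psef ℂ K w (OffU y Un) ↔ BalancedL d d w y Un) ∧
  (Psef ℂ K w (OffU y Un) →
    ∃ ω : (Fin w → Derivation ℂ K K) → K, LogSec ℂ K w d (OffU y Un) ω ∧ ∃ D, ω D ≠ 0)

end Pool.Agent.T9h4.LD
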